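import Pool.Agent.Lib.MP_9bed89_co.Off.Up

set_option autoImplicit false

/-! Off-diagonal Ramsey numbers: the lower bound for the triangle (random graph with a maximal
family of edge-disjoint triangles removed). -/

namespace Pool.Agent.OffRam

open Finset SimpleGraph

section counting

variable {E : Type} [Fintype E] [DecidableEq E] {q : ℕ}

lemma sum_prod_fun (g : E → Fin q → ℝ) :
    ∑ f : E → Fin q, ∏ e, g e (f e) = ∏ e, ∑ c, g e c := by
  rw [Finset.prod_univ_sum, Fintype.piFinset_univ]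

variable [NeZero q]

/-- The exponential moment of the number of red elements. -/
lemma sum_half (F : Finset E) :
    ∑ f : E → Fin q, (1 / 2 : ℝ) ^ (F.filter (fun e => f e = 0)).card =
      (q : ℝ) ^ Fintype.card E * (1 - 1 / (2 * q)) ^ F.card := by
  have hq : (q : ℝ) ≠ 0 := by exact_mod_cast NeZero.ne q
  have h1 : ∀ f : E → Fin q, (1 / 2 : ℝ) ^ (F.filter (fun e => f e = 0)).card =
      ∏ e, (if e ∈ F ∧ f e = 0 then (1 / 2 : ℝ) else 1) := by
    intro f
    rw [Finset.prod_ite, Finset.prod_const_one, mul_one, Finset.prod_const]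
    congr 2
    ext e
    simp
  rw [Finset.sum_congr rfl (fun f _ => h1 f)]
  rw [sum_prod_fun (fun e c => if e ∈ F ∧ c = 0 then (1 / 2 : ℝ) else 1)]
  have h2 : ∀ e : E, ∑ c : Fin q, (if e ∈ F ∧ c = 0 then (1 / 2 : ℝ) else 1) =
      (q : ℝ) * (if e ∈ F then (1 - 1 / (2 * (q : ℝ)) : ℝ) else 1) := by
    intro e
    by_cases he : e ∈ F
    · simp only [he, true_and, if_true]
      have h3 : ∀ c : Fin q, (if c = 0 then (1 / 2 : ℝ) else 1) = 1 - (if c = 0 then (1 / 2 : ℝ) else 0) := by
        intro c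
        split_ifs <;> norm_num
      rw [Finset.sum_congr rfl (fun c _ => h3 c), Finset.sum_sub_distrib, Finset.sum_ite_eq']
      simp
      field_simp
    · simp [he]
  rw [Finset.prod_congr rfl (fun e _ => h2 e), Finset.prod_mul_distrib, Finset.prod_const, Finset.card_univ]
  congr 1
  rw [Finset.prod_ite, Finset.prod_const_one, mul_one, Finset.prod_const]
  congr 2
  ext e
  simp

/-- The number of colourings with few red elements in `F`. -/
lemma card_few (F : Finset E) (m : ℕ) :
    ((Finset.univ.filter (fun f : E → Fin q => (F.filter (fun e => f e = 0)).card < m)).card : ℝ) ≤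
      2 ^ m * ((q : ℝ) ^ Fintype.card E * (1 - 1 / (2 * q)) ^ F.card) := by
  rw [← sum_half F, Finset.mul_sum, Finset.card_eq_sum_ones, Nat.cast_sum]
  push_cast
  refine le_trans (Finset.sum_le_sum (fun f hf => ?_)) (Finset.sum_le_sum_of_subset_of_nonneg (Finset.subset_univ _)
    (fun f _ _ => by positivity))
  have h := (Finset.mem_filter.1 hf).2
  have h1 : (1 : ℝ) = 2 ^ m * (1 / 2) ^ m := by rw [← mul_pow]; norm_num
  refine h1.le.trans ?_
  apply mul_le_mul_of_nonneg_left _ (by positivity)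
  exact pow_le_pow_of_le_one (a := (1 / 2 : ℝ)) (by norm_num) (by norm_num) h.le

/-- The number of colourings which are red on `T`. -/
lemma card_red (T : Finset E) :
    ((Finset.univ.filter (fun f : E → Fin q => ∀ e ∈ T, f e = 0)).card : ℝ) =
      (q : ℝ) ^ Fintype.card E / (q : ℝ) ^ T.card := by
  have hq : (q : ℝ) ≠ 0 := by exact_mod_cast NeZero.ne q
  have h1 : ((Finset.univ.filter (fun f : E → Fin q => ∀ e ∈ T, f e = 0)).card : ℝ) =
      ∑ f : E → Fin q, ∏ e, (if e ∈ T ∧ f e ≠ 0 then (0 : ℝ) else 1) := by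
    rw [Finset.card_filter, Nat.cast_sum]
    apply Finset.sum_congr rfl
    intro f _
    by_cases h : ∀ e ∈ T, f e = 0
    · rw [if_pos h]
      rw [Finset.prod_eq_one]
      · simp
      · intro e _
        rw [if_neg]
        rintro ⟨h1, h2⟩
        exact h2 (h e h1)
    · rw [if_neg h]
      push Not at h
      obtain ⟨e, he, hne⟩ := h
      rw [Finset.prod_eq_zero (Finset.mem_univ e)]
      · simp
      · rw [if_pos ⟨he, hne⟩]
  rw [h1, sum_prod_fun (fun e c => if e ∈ T ∧ c ≠ 0 then (0 : ℝ) else 1)]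
  have h2 : ∀ e : E, ∑ c : Fin q, (if e ∈ T ∧ c ≠ 0 then (0 : ℝ) else 1) =
      q * (if e ∈ T then (q : ℝ)⁻¹ else 1) := by
    intro e
    by_cases he : e ∈ T
    · simp only [he, true_and, if_true]
      have h3 : ∀ c : Fin q, (if c ≠ 0 then (0 : ℝ) else 1) = (if c = 0 then (1 : ℝ) else 0) := by
        intro c
        by_cases hc : c = 0 <;> simp [hc]
      rw [Finset.sum_congr rfl (fun c _ => h3 c), Finset.sum_ite_eq']
      simp [hq]
    · simp [he]
  rw [Finset.prod_congr rfl (fun e _ => h2 e), Finset.prod_mul_distrib, Finset.prod_const, Finset.card_univ,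
    div_eq_mul_inv]
  congr 1
  rw [Finset.prod_ite, Finset.prod_const_one, mul_one, Finset.prod_const, ← inv_pow]
  congr 2
  ext e
  simp

open scoped Classical in
/-- The number of colourings with `s` disjoint red three-element sets from a list `TT`. -/
lemma card_many (TT : Finset (Finset E)) (h3 : ∀ T ∈ TT, T.card = 3) (s : ℕ) :
    ((Finset.univ.filter (fun f : E → Fin q => ∃ P ⊆ TT, P.card = s ∧ (P : Set (Finset E)).PairwiseDisjoint id ∧
      ∀ T ∈ P, ∀ e ∈ T, f e = 0)).card : ℝ) ≤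
      (TT.card : ℝ) ^ s / s.factorial * ((q : ℝ) ^ Fintype.card E / (q : ℝ) ^ (3 * s)) := by
  set PP : Finset (Finset (Finset E)) := (TT.powersetCard s).filter (fun P : Finset (Finset E) => (P : Set (Finset E)).PairwiseDisjoint id) with hPP
  have h1 : (Finset.univ.filter (fun f : E → Fin q => ∃ P ⊆ TT, P.card = s ∧ (P : Set (Finset E)).PairwiseDisjoint id ∧
      ∀ T ∈ P, ∀ e ∈ T, f e = 0)) ⊆ PP.biUnion (fun P => Finset.univ.filter (fun f : E → Fin q => ∀ e ∈ P.biUnion id, f e = 0)) := by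
    intro f hf
    obtain ⟨P, hP, hPc, hPd, hred⟩ := (Finset.mem_filter.1 hf).2
    rw [Finset.mem_biUnion]
    refine ⟨P, Finset.mem_filter.2 ⟨Finset.mem_powersetCard.2 ⟨hP, hPc⟩, hPd⟩, Finset.mem_filter.2 ⟨Finset.mem_univ _, ?_⟩⟩
    intro e he
    obtain ⟨T, hT, heT⟩ := Finset.mem_biUnion.1 he
    exact hred T hT e heT
  have h2 : ∀ P ∈ PP, ((Finset.univ.filter (fun f : E → Fin q => ∀ e ∈ P.biUnion id, f e = 0)).card : ℝ) =
      (q : ℝ) ^ Fintype.card E / (q : ℝ) ^ (3 * s) := by
    intro P hP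
    obtain ⟨hP1, hPd⟩ := Finset.mem_filter.1 hP
    obtain ⟨hPs, hPc⟩ := Finset.mem_powersetCard.1 hP1
    rw [card_red]
    have h4 : (P.biUnion id).card = 3 * s := by
      have h7 : ∀ T ∈ P, (id T).card = 3 := fun T hT => h3 T (hPs hT)
      rw [Finset.card_biUnion hPd, Finset.sum_congr rfl h7, Finset.sum_const, hPc, smul_eq_mul, mul_comm]
    rw [h4]
  have h5 : (((Finset.univ.filter (fun f : E → Fin q => ∃ P ⊆ TT, P.card = s ∧ (P : Set (Finset E)).PairwiseDisjoint id ∧
      ∀ T ∈ P, ∀ e ∈ T, f e = 0)).card : ℕ) : ℝ) ≤ ∑ P ∈ PP, ((Finset.univ.filter (fun f : E → Fin q => ∀ e ∈ P.biUnion id, f e = 0)).card : ℝ) := by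
    have := (Finset.card_le_card h1).trans Finset.card_biUnion_le
    exact_mod_cast this
  refine h5.trans ?_
  rw [Finset.sum_congr rfl h2, Finset.sum_const, nsmul_eq_mul]
  apply mul_le_mul_of_nonneg_right _ (by positivity)
  have h6 : PP.card ≤ TT.card.choose s := by
    rw [← Finset.card_powersetCard]
    exact Finset.card_le_card (Finset.filter_subset _ _)
  calc (PP.card : ℝ) ≤ (TT.card.choose s : ℝ) := by exact_mod_cast h6
    _ ≤ (TT.card : ℝ) ^ s / s.factorial := Nat.choose_le_pow_div s TT.card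

end counting

/-! ### Triangles -/

section tri

variable {N : ℕ}

/-- the three edges of a triangle -/
def te (x y z : Fin N) : Finset (Sym2 (Fin N)) := {s(x, y), s(x, z), s(y, z)}

def IsTri (T : Finset (Sym2 (Fin N))) : Prop := ∃ x y z : Fin N, x ≠ y ∧ x ≠ z ∧ y ≠ z ∧ T = te x y z

lemma te_card {x y z : Fin N} (h1 : x ≠ y) (h2 : x ≠ z) (h3 : y ≠ z) : (te x y z).card = 3 := by
  rw [te, Finset.card_eq_three]
  refine ⟨_, _, _, ?_, ?_, ?_, rfl⟩
  · intro h
    rw [Sym2.eq_iff] at h
    rcases h with ⟨_, h⟩ | ⟨h, _⟩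
    · exact h3 h
    · exact h2 h
  · intro h
    rw [Sym2.eq_iff] at h
    rcases h with ⟨h, _⟩ | ⟨h, _⟩
    · exact h1 h
    · exact h2 h
  · intro h
    rw [Sym2.eq_iff] at h
    rcases h with ⟨h, _⟩ | ⟨_, h⟩
    · exact h1 h
    · exact h3 h.symm

lemma te_swap12 (x y z : Fin N) : te x y z = te y x z := by
  ext e
  simp only [te, Finset.mem_insert, Finset.mem_singleton]
  rw [Sym2.eq_swap (a := x) (b := y)]
  tauto

lemma te_swap23 (x y z : Fin N) : te x y z = te x z y := by
  ext e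
  simp only [te, Finset.mem_insert, Finset.mem_singleton]
  rw [Sym2.eq_swap (a := y) (b := z)]
  tauto

/-- the cone over an edge -/
def cone (z : Fin N) : Sym2 (Fin N) → Finset (Sym2 (Fin N)) :=
  Sym2.lift ⟨fun x y => te x y z, fun x y => te_swap12 x y z⟩

open scoped Classical in
/-- The number of triangles with an edge in `F`. -/
lemma card_tri (F : Finset (Sym2 (Fin N))) :
    ((Finset.univ.filter (fun T : Finset (Sym2 (Fin N)) => IsTri T ∧ ¬ Disjoint T F)).card) ≤ F.card * N := by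
  have h1 : (Finset.univ.filter (fun T : Finset (Sym2 (Fin N)) => IsTri T ∧ ¬ Disjoint T F)) ⊆
      (F ×ˢ (Finset.univ : Finset (Fin N))).image (fun p => cone p.2 p.1) := by
    intro T hT
    obtain ⟨⟨x, y, z, h1, h2, h3, rfl⟩, hd⟩ := (Finset.mem_filter.1 hT).2
    rw [Finset.not_disjoint_iff] at hd
    obtain ⟨e, he, heF⟩ := hd
    rw [Finset.mem_image]
    simp only [te, Finset.mem_insert, Finset.mem_singleton] at he
    rcases he with rfl | rfl | rfl
    · exact ⟨(s(x, y), z), Finset.mem_product.2 ⟨heF, Finset.mem_univ _⟩, rfl⟩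
    · exact ⟨(s(x, z), y), Finset.mem_product.2 ⟨heF, Finset.mem_univ _⟩, (te_swap23 x y z).symm⟩
    · refine ⟨(s(y, z), x), Finset.mem_product.2 ⟨heF, Finset.mem_univ _⟩, ?_⟩
      change te y z x = te x y z
      rw [te_swap23 y z x, te_swap12 y x z]
  refine (Finset.card_le_card h1).trans (Finset.card_image_le.trans ?_)
  rw [Finset.card_product, Finset.card_univ, Fintype.card_fin]

open scoped Classical in
/-- The random graph after the removal of a maximal family of disjoint red triangles. -/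
lemma exists_graph {q : ℕ} [NeZero q] (f : Sym2 (Fin N) → Fin q) :
    ∃ Γ : SimpleGraph (Fin N), ¬ (⊤ : SimpleGraph (Fin 3)).IsContained Γ ∧
      ∃ P : Finset (Finset (Sym2 (Fin N))), (P : Set (Finset (Sym2 (Fin N)))).PairwiseDisjoint id ∧
        (∀ T ∈ P, IsTri T ∧ ∀ e ∈ T, f e = 0) ∧
        ∀ x y, x ≠ y → ¬ Γ.Adj x y → f s(x, y) = 0 → s(x, y) ∈ P.biUnion id := by
  set AA : Finset (Finset (Finset (Sym2 (Fin N)))) :=
    Finset.univ.filter (fun P => (P : Set (Finset (Sym2 (Fin N)))).PairwiseDisjoint id ∧ ∀ T ∈ P, IsTri T ∧ ∀ e ∈ T, f e = 0) with hAA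
  have hne : AA.Nonempty := ⟨∅, by simp [hAA]⟩
  obtain ⟨P, hP, hmax⟩ := Finset.exists_max_image AA Finset.card hne
  obtain ⟨hPd, hPr⟩ := (Finset.mem_filter.1 hP).2
  let Γ : SimpleGraph (Fin N) :=
    { Adj := fun x y => x ≠ y ∧ f s(x, y) = 0 ∧ s(x, y) ∉ P.biUnion id
      symm := ⟨fun x y h => ⟨h.1.symm, by rw [Sym2.eq_swap]; exact h.2.1, by rw [Sym2.eq_swap]; exact h.2.2⟩⟩
      loopless := ⟨fun x h => h.1 rfl⟩ }
  refine ⟨Γ, ?_, P, hPd, hPr, ?_⟩
  · rintro ⟨φ⟩
    have hadj : ∀ i j : Fin 3, i ≠ j → Γ.Adj (φ i) (φ j) := fun i j hij => φ.toHom.map_adj hij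
    have h01 := hadj 0 1 (by decide)
    have h02 := hadj 0 2 (by decide)
    have h12 := hadj 1 2 (by decide)
    set T := te (φ 0) (φ 1) (φ 2) with hT
    have hTe : ∀ e ∈ T, f e = 0 ∧ e ∉ P.biUnion id := by
      intro e he
      simp only [hT, te, Finset.mem_insert, Finset.mem_singleton] at he
      rcases he with rfl | rfl | rfl
      · exact h01.2
      · exact h02.2
      · exact h12.2
    have hTtri : IsTri T := ⟨_, _, _, h01.1, h02.1, h12.1, rfl⟩
    have hTne : T.Nonempty := ⟨s(φ 0, φ 1), by simp [hT, te]⟩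
    have hdisj : ∀ T' ∈ P, Disjoint T T' := by
      intro T' hT'
      rw [Finset.disjoint_left]
      intro e he he'
      exact (hTe e he).2 (Finset.mem_biUnion.2 ⟨T', hT', he'⟩)
    have hTP : T ∉ P := by
      intro h
      have := hdisj T h
      rw [disjoint_self, Finset.bot_eq_empty] at this
      exact hTne.ne_empty this
    have hins : insert T P ∈ AA := by
      refine Finset.mem_filter.2 ⟨Finset.mem_univ _, ?_, ?_⟩
      · rw [Finset.coe_insert]
        rw [Set.pairwiseDisjoint_insert]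
        exact ⟨hPd, fun T' hT' _ => hdisj T' hT'⟩
      · intro T' hT'
        rcases Finset.mem_insert.1 hT' with rfl | hT'
        · exact ⟨hTtri, fun e he => (hTe e he).1⟩
        · exact hPr T' hT'
    have := hmax _ hins
    rw [Finset.card_insert_of_notMem hTP] at this
    omega
  · intro x y hxy hn hf
    by_contra hcon
    exact hn ⟨hxy, hf, hcon⟩

set_option maxHeartbeats 4000000 in
open scoped Classical in
/-- The counting form of the lower bound. -/
lemma not_arrows {V : Type} [Finite V] (G : SimpleGraph V) (q s n : ℕ) [NeZero q] (hN : 1 ≤ N) (hn : G.edgeSet.ncard = n)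
    (hnum : (N : ℝ) ^ N * (2 ^ (3 * s) * (1 - 1 / (2 * q)) ^ n + ((n : ℝ) * N) ^ s / s.factorial / (q : ℝ) ^ (3 * s)) < 1) :
    ¬ Arrows N (⊤ : SimpleGraph (Fin 3)) G := by
  intro harr
  have : Fintype V := Fintype.ofFinite V
  set K : ℝ := (q : ℝ) ^ Fintype.card (Sym2 (Fin N)) with hK
  have hq0 : (0 : ℝ) < q := by
    have := NeZero.pos q
    exact_mod_cast this
  have hKpos : 0 < K := by positivity
  let FF : (V ↪ Fin N) → Finset (Sym2 (Fin N)) := fun φ => G.edgeFinset.image (Sym2.map φ)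
  have hFc : ∀ φ, (FF φ).card = n := by
    intro φ
    rw [Finset.card_image_of_injective _ (Sym2.map.injective φ.injective), ← hn, Set.ncard_eq_toFinset_card']
    rfl
  let bad : (V ↪ Fin N) → Finset (Sym2 (Fin N) → Fin q) := fun φ =>
    (Finset.univ.filter (fun f : Sym2 (Fin N) → Fin q => ((FF φ).filter (fun e => f e = 0)).card < 3 * s)) ∪
    (Finset.univ.filter (fun f : Sym2 (Fin N) → Fin q => ∃ P ⊆ Finset.univ.filter (fun T : Finset (Sym2 (Fin N)) => IsTri T ∧ ¬ Disjoint T (FF φ)),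
      P.card = s ∧ (P : Set (Finset (Sym2 (Fin N)))).PairwiseDisjoint id ∧ ∀ T ∈ P, ∀ e ∈ T, f e = 0))
  set β : ℝ := 2 ^ (3 * s) * (1 - 1 / (2 * q)) ^ n + ((n : ℝ) * N) ^ s / s.factorial / (q : ℝ) ^ (3 * s) with hβ
  have hbad : ∀ φ, ((bad φ).card : ℝ) ≤ K * β := by
    intro φ
    have h1 := card_few (q := q) (FF φ) (3 * s)
    have h2 := card_many (q := q) (Finset.univ.filter (fun T : Finset (Sym2 (Fin N)) => IsTri T ∧ ¬ Disjoint T (FF φ)))
      (fun T hT => by
        obtain ⟨⟨x, y, z, hxy, hxz, hyz, rfl⟩, _⟩ := (Finset.mem_filter.1 hT).2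
        exact te_card hxy hxz hyz) s
    have h3 : ((Finset.univ.filter (fun T : Finset (Sym2 (Fin N)) => IsTri T ∧ ¬ Disjoint T (FF φ))).card : ℝ) ≤ (n : ℝ) * N := by
      have := card_tri (FF φ)
      rw [hFc] at this
      exact_mod_cast this
    have h4 : ((bad φ).card : ℝ) ≤ ((Finset.univ.filter (fun f : Sym2 (Fin N) → Fin q => ((FF φ).filter (fun e => f e = 0)).card < 3 * s)).card : ℝ) +
        ((Finset.univ.filter (fun f : Sym2 (Fin N) → Fin q => ∃ P ⊆ Finset.univ.filter (fun T : Finset (Sym2 (Fin N)) => IsTri T ∧ ¬ Disjoint T (FF φ)),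
      P.card = s ∧ (P : Set (Finset (Sym2 (Fin N)))).PairwiseDisjoint id ∧ ∀ T ∈ P, ∀ e ∈ T, f e = 0)).card : ℝ) := by
      exact_mod_cast Finset.card_union_le _ _
    refine h4.trans ?_
    rw [hFc] at h1
    have h5 : ((Finset.univ.filter (fun T : Finset (Sym2 (Fin N)) => IsTri T ∧ ¬ Disjoint T (FF φ))).card : ℝ) ^ s / s.factorial * (K / (q : ℝ) ^ (3 * s)) ≤
        ((n : ℝ) * N) ^ s / s.factorial * (K / (q : ℝ) ^ (3 * s)) := by
      apply mul_le_mul_of_nonneg_right _ (by positivity)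
      apply div_le_div_of_nonneg_right _ (by positivity)
      exact pow_le_pow_left₀ (by positivity) h3 s
    have h6 : K * β = 2 ^ (3 * s) * (K * (1 - 1 / (2 * q)) ^ n) + ((n : ℝ) * N) ^ s / s.factorial * (K / (q : ℝ) ^ (3 * s)) := by
      rw [hβ]
      ring
    rw [h6]
    refine add_le_add h1 (le_trans (le_of_eq ?_) (h2.trans h5))
    congr!
  have hβ0 : 0 ≤ β := by
    have h1 : (0 : ℝ) ≤ 1 - 1 / (2 * q) := by
      have h2 : (1 : ℝ) ≤ q := by
        have := NeZero.one_le (n := q)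
        exact_mod_cast this
      have h3 : (1 : ℝ) / (2 * q) ≤ 1 := by
        rw [div_le_one (by positivity)]
        linarith
      linarith
    positivity
  have hcardV : (Fintype.card (V ↪ Fin N) : ℝ) ≤ (N : ℝ) ^ N := by
    by_cases hVN : Fintype.card V ≤ N
    · have h1 : Fintype.card (V ↪ Fin N) ≤ Fintype.card (V → Fin N) :=
        Fintype.card_le_of_injective (fun φ => (φ : V → Fin N)) DFunLike.coe_injective
      rw [Fintype.card_fun, Fintype.card_fin] at h1
      have h2 : N ^ Fintype.card V ≤ N ^ N := Nat.pow_le_pow_right hN hVN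
      exact_mod_cast h1.trans h2
    · have h1 : IsEmpty (V ↪ Fin N) := by
        refine ⟨fun φ => hVN ?_⟩
        have := Fintype.card_le_of_injective φ φ.injective
        rwa [Fintype.card_fin] at this
      rw [Fintype.card_eq_zero, Nat.cast_zero]
      positivity
  have htot : (((Finset.univ : Finset (V ↪ Fin N)).biUnion bad).card : ℝ) < (Fintype.card (Sym2 (Fin N) → Fin q) : ℝ) := by
    have h1 : (((Finset.univ : Finset (V ↪ Fin N)).biUnion bad).card : ℝ) ≤ ∑ φ : V ↪ Fin N, ((bad φ).card : ℝ) := by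
      exact_mod_cast Finset.card_biUnion_le
    have h2 : ∑ φ : V ↪ Fin N, ((bad φ).card : ℝ) ≤ (Fintype.card (V ↪ Fin N) : ℝ) * (K * β) := by
      refine (Finset.sum_le_sum (fun φ _ => hbad φ)).trans ?_
      rw [Finset.sum_const, nsmul_eq_mul, Finset.card_univ]
    have h3 : (Fintype.card (V ↪ Fin N) : ℝ) * (K * β) ≤ (N : ℝ) ^ N * (K * β) :=
      mul_le_mul_of_nonneg_right hcardV (by positivity)
    have h4 : (N : ℝ) ^ N * (K * β) < K := by
      calc (N : ℝ) ^ N * (K * β) = K * ((N : ℝ) ^ N * β) := by ring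
        _ < K * 1 := mul_lt_mul_of_pos_left hnum hKpos
        _ = K := mul_one K
    have h5 : (Fintype.card (Sym2 (Fin N) → Fin q) : ℝ) = K := by
      rw [Fintype.card_fun, Fintype.card_fin]
      push_cast
      rfl
    rw [h5]
    linarith
  have htot' : ((Finset.univ : Finset (V ↪ Fin N)).biUnion bad).card < (Finset.univ : Finset (Sym2 (Fin N) → Fin q)).card := by
    rw [Finset.card_univ]
    exact_mod_cast htot
  obtain ⟨f, -, hf⟩ := Finset.exists_mem_notMem_of_card_lt_card htot'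
  obtain ⟨Γ, hΓ, P, hPd, hPr, hcov⟩ := exists_graph f
  rcases harr Γ with h | ⟨⟨φ⟩⟩
  · exact hΓ h
  · apply hf
    rw [Finset.mem_biUnion]
    let ψ : V ↪ Fin N := ⟨φ, φ.injective⟩
    refine ⟨ψ, Finset.mem_univ _, ?_⟩
    rw [Finset.mem_union]
    by_cases hfew : ((FF ψ).filter (fun e => f e = 0)).card < 3 * s
    · left
      exact Finset.mem_filter.2 ⟨Finset.mem_univ _, hfew⟩
    · right
      push Not at hfew
      refine (@Finset.mem_filter _ _ (_) _ _).2 ⟨Finset.mem_univ _, ?_⟩
      set PF := P.filter (fun T => ¬ Disjoint T (FF ψ)) with hPF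
      have h1 : (FF ψ).filter (fun e => f e = 0) ⊆ PF.biUnion id := by
        intro e he
        obtain ⟨heF, hfe⟩ := Finset.mem_filter.1 he
        obtain ⟨e', he', rfl⟩ := Finset.mem_image.1 heF
        induction e' using Sym2.ind with
        | _ u v =>
          have huv : G.Adj u v := by
            rw [SimpleGraph.mem_edgeFinset] at he'
            exact he'
          have h2 : Γᶜ.Adj (φ u) (φ v) := φ.toHom.map_adj huv
          rw [SimpleGraph.compl_adj] at h2
          have h3 : Sym2.map ψ s(u, v) = s(φ u, φ v) := rfl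
          rw [h3] at hfe ⊢
          have h4 := hcov (φ u) (φ v) h2.1 h2.2 hfe
          obtain ⟨T, hT, heT⟩ := Finset.mem_biUnion.1 h4
          refine Finset.mem_biUnion.2 ⟨T, Finset.mem_filter.2 ⟨hT, ?_⟩, heT⟩
          rw [Finset.not_disjoint_iff]
          exact ⟨_, heT, heF⟩
      have h2 : (PF.biUnion id).card ≤ PF.card * 3 := by
        refine Finset.card_biUnion_le.trans ?_
        rw [← smul_eq_mul, ← Finset.sum_const]
        apply Finset.sum_le_sum
        intro T hT
        obtain ⟨x, y, z, hxy, hxz, hyz, rfl⟩ := (hPr T (Finset.mem_filter.1 hT).1).1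
        exact (te_card hxy hxz hyz).le
      have h3 : s ≤ PF.card := by
        have := (hfew.trans (Finset.card_le_card h1)).trans h2
        omega
      obtain ⟨P', hP', hP'c⟩ := Finset.exists_subset_card_eq h3
      refine ⟨P', ?_, hP'c, ?_, ?_⟩
      · intro T hT
        obtain ⟨hTP, hTF⟩ := Finset.mem_filter.1 (hP' hT)
        exact Finset.mem_filter.2 ⟨Finset.mem_univ _, (hPr T hTP).1, hTF⟩
      · intro T hT T' hT' hne
        exact hPd (Finset.mem_filter.1 (hP' hT)).1 (Finset.mem_filter.1 (hP' hT')).1 hne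
      · intro T hT e he
        exact (hPr T (Finset.mem_filter.1 (hP' hT)).1).2 e he

end tri

end Pool.Agent.OffRam
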