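import Pool.Agent.Lib.MP_9bed89_co.Off.Low

set_option autoImplicit false

/-! The lower bound for `r(K_3, G)` in terms of the number of edges. -/

namespace Pool.Agent.OffRam

open Finset SimpleGraph

/-- Ramsey's theorem for a triangle and a clique. -/
lemma triangle_clique {V : Type} [DecidableEq V] (Γ : SimpleGraph V) (hΓ : ¬ (⊤ : SimpleGraph (Fin 3)).IsContained Γ) :
    ∀ (b : ℕ) (S : Finset V), b * b ≤ S.card → ∃ T ⊆ S, T.card = b ∧ ∀ x ∈ T, ∀ y ∈ T, ¬ Γ.Adj x y := by
  classical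
  intro b
  induction b with
  | zero => intro S _; exact ⟨∅, Finset.empty_subset _, rfl, by simp⟩
  | succ b ih =>
    intro S hS
    have hpos : 0 < S.card := by nlinarith
    obtain ⟨v, hv⟩ := Finset.card_pos.1 hpos
    by_cases h : b + 1 ≤ (S.filter (fun y => Γ.Adj v y)).card
    · obtain ⟨T, hT, hTc⟩ := Finset.exists_subset_card_eq h
      refine ⟨T, hT.trans (Finset.filter_subset _ _), hTc, ?_⟩
      intro x hx y hy hxy
      exact hΓ (tri_contained (Finset.mem_filter.1 (hT hx)).2 (Finset.mem_filter.1 (hT hy)).2 hxy)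
    · push Not at h
      have h1 : b * b ≤ ((S.filter (fun y => ¬ Γ.Adj v y)).erase v).card := by
        have h2 := Finset.card_filter_add_card_filter_not (s := S) (fun y => Γ.Adj v y)
        rw [Finset.card_erase_of_mem (Finset.mem_filter.2 ⟨hv, Γ.loopless.irrefl v⟩)]
        have h3 : (b + 1) * (b + 1) = b * b + 2 * b + 1 := by ring
        omega
      obtain ⟨T, hT, hTc, hTi⟩ := ih _ h1
      have hvT : v ∉ T := fun h2 => Finset.notMem_erase v _ (hT h2)
      have hTv : ∀ y ∈ T, ¬ Γ.Adj v y := fun y hy => (Finset.mem_filter.1 (Finset.mem_of_mem_erase (hT hy))).2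
      refine ⟨insert v T, ?_, ?_, ?_⟩
      · intro x hx
        rcases Finset.mem_insert.1 hx with rfl | hx
        · exact hv
        · exact (Finset.mem_filter.1 (Finset.mem_of_mem_erase (hT hx))).1
      · rw [Finset.card_insert_of_notMem hvT, hTc]
      · intro x hx y hy
        rcases Finset.mem_insert.1 hx with hx' | hx' <;> rcases Finset.mem_insert.1 hy with hy' | hy'
        · rw [hx', hy']
          exact Γ.loopless.irrefl _
        · rw [hx']
          exact hTv y hy'
        · rw [hy']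
          exact fun h2 => hTv x hx' h2.symm
        · exact hTi x hx' y hy'

/-- The Ramsey number `r(K_3, G)` has the defining property. -/
lemma arrows_ramsey {V : Type} [Finite V] (G : SimpleGraph V) :
    Arrows (ramsey (⊤ : SimpleGraph (Fin 3)) G) (⊤ : SimpleGraph (Fin 3)) G := by
  have hne : {N | Arrows N (⊤ : SimpleGraph (Fin 3)) G}.Nonempty := by
    have : Fintype V := Fintype.ofFinite V
    refine ⟨Fintype.card V * Fintype.card V, fun Γ => ?_⟩
    by_cases hΓ : (⊤ : SimpleGraph (Fin 3)).IsContained Γ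
    · exact Or.inl hΓ
    · right
      obtain ⟨T, _, hTc, hTi⟩ := triangle_clique Γ hΓ (Fintype.card V) Finset.univ (by simp)
      let e : V ≃ T := Fintype.equivOfCardEq (by simp [hTc])
      refine ⟨⟨⟨fun v => (e v : Fin _), ?_⟩, ?_⟩⟩
      · intro u v huv
        rw [SimpleGraph.compl_adj]
        refine ⟨fun h => huv.ne (e.injective (Subtype.ext h)), hTi _ (e u).2 _ (e v).2⟩
      · intro u v h
        exact e.injective (Subtype.ext h)
  exact Nat.sInf_mem hne

/-- There is a graph with `n` edges. -/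
lemma exists_edges (n : ℕ) : ∃ (V : Type) (_ : Finite V) (G : SimpleGraph V), G.edgeSet.ncard = n := by
  classical
  refine ⟨Fin n × Bool × Fin 1, inferInstance, SimpleGraph.fromEdgeSet (Set.range (bedge n 1)), ?_⟩
  have hdiag : ∀ e ∈ Set.range (bedge n 1), ¬ e.IsDiag := by
    rintro _ ⟨p, rfl⟩
    unfold bedge
    rw [Sym2.mk_isDiag_iff]
    simp
  have hG : (SimpleGraph.fromEdgeSet (Set.range (bedge n 1))).edgeSet = Set.range (bedge n 1) := by
    rw [SimpleGraph.edgeSet_fromEdgeSet]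
    ext e
    constructor
    · exact fun h => h.1
    · exact fun h => ⟨h, hdiag e h⟩
  rw [hG, ← Set.image_univ, Set.ncard_image_of_injective _ (bedge_inj n 1), Set.ncard_univ]
  simp

/-- The minimum is attained. -/
lemma R_attained {U : Type} (H : SimpleGraph U) (n : ℕ) :
    ∃ (V : Type) (_ : Finite V) (G : SimpleGraph V), G.edgeSet.ncard = n ∧ ramsey H G = R H n := by
  have hne : {r | ∃ (V : Type) (_ : Finite V) (G : SimpleGraph V), G.edgeSet.ncard = n ∧ ramsey H G = r}.Nonempty := by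
    obtain ⟨V, hV, G, hG⟩ := exists_edges n
    exact ⟨_, V, hV, G, hG, rfl⟩
  exact Nat.sInf_mem hne

/-- The numerical estimate. -/
lemma not_arrows_num {V : Type} [Finite V] (G : SimpleGraph V) (n N : ℕ) (hN : 2 ≤ N) (hn : G.edgeSet.ncard = n)
    (h : (N : ℝ) * Real.sqrt N * Real.log N ≤ n / 2 ^ 21) : ¬ Arrows N (⊤ : SimpleGraph (Fin 3)) G := by
  have hNr : (2 : ℝ) ≤ N := by exact_mod_cast hN
  have hL : 0.69 < Real.log N := by
    have h1 : Real.log 2 ≤ Real.log N := Real.log_le_log (by norm_num) hNr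
    linarith [Real.log_two_gt_d9]
  set L := Real.log N with hLdef
  set w := Real.sqrt N with hw
  have hw2 : w * w = N := Real.mul_self_sqrt (by positivity)
  have hw1 : 1 ≤ w := by
    rw [hw, Real.one_le_sqrt]
    linarith
  set q := ⌈2 ^ 15 * w⌉₊ with hq
  have hq1 : 2 ^ 15 * w ≤ (q : ℝ) := Nat.le_ceil _
  have hq2 : (q : ℝ) ≤ 2 ^ 16 * w := by
    have := (Nat.ceil_lt_add_one (show (0 : ℝ) ≤ 2 ^ 15 * w by positivity)).le
    linarith
  have hqpos : 0 < (q : ℝ) := by linarith
  have hq0 : q ≠ 0 := by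
    intro h0
    rw [h0] at hqpos
    simp at hqpos
  have : NeZero q := ⟨hq0⟩
  set x := (n : ℝ) / q with hx
  have hxN : 32 * N * L ≤ x := by
    rw [hx, le_div_iff₀ hqpos]
    rw [le_div_iff₀ (by positivity)] at h
    calc 32 * N * L * q ≤ 32 * N * L * (2 ^ 16 * w) := by gcongr
      _ = N * w * L * 2 ^ 21 := by ring
      _ ≤ n := h
  have hNL : 1.38 ≤ N * L := by nlinarith
  have hx44 : 44 ≤ x := by linarith
  set s := ⌈x / 32⌉₊ with hs
  have hs1 : x / 32 ≤ s := Nat.le_ceil _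
  have hs2 : (s : ℝ) ≤ x / 32 + 1 := (Nat.ceil_lt_add_one (show (0 : ℝ) ≤ x / 32 by positivity)).le
  have hspos : 0 < (s : ℝ) := by linarith
  refine not_arrows G q s n (by omega) hn ?_
  have hA : (N : ℝ) ^ N = Real.exp (N * L) := by
    rw [Real.exp_nat_mul, hLdef, Real.exp_log (by linarith)]
  have hexp1 : Real.exp (-1) < 1 / 2 := by
    have := Real.exp_neg_one_lt_d9
    linarith
  have hlog2 : Real.log 2 ≤ 0.7 := by linarith [Real.log_two_lt_d9]
  -- the first term
  have hB1 : (2 : ℝ) ^ (3 * s) ≤ Real.exp (2.1 * s) := by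
    have h1 : (2 : ℝ) ^ (3 * s) = Real.exp (((3 * s : ℕ) : ℝ) * Real.log 2) := by
      rw [Real.exp_nat_mul, Real.exp_log (by norm_num)]
    rw [h1]
    apply Real.exp_le_exp.2
    push_cast
    nlinarith
  have hC0 : (0 : ℝ) ≤ 1 - 1 / (2 * q) := by
    have h2 : (1 : ℝ) ≤ q := by linarith
    have h3 : (1 : ℝ) / (2 * q) ≤ 1 := by
      rw [div_le_one (by positivity)]
      linarith
    linarith
  have hC1 : (1 - 1 / (2 * (q : ℝ))) ^ n ≤ Real.exp (-(x / 2)) := by
    have h1 : 1 - 1 / (2 * (q : ℝ)) ≤ Real.exp (-(1 / (2 * q))) := by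
      have := Real.add_one_le_exp (-(1 / (2 * (q : ℝ))))
      linarith
    have h2 : (1 - 1 / (2 * (q : ℝ))) ^ n ≤ Real.exp (-(1 / (2 * q))) ^ n := pow_le_pow_left₀ hC0 h1 n
    refine h2.trans (le_of_eq ?_)
    rw [← Real.exp_nat_mul]
    congr 1
    rw [hx]
    field_simp
  have hT1 : (N : ℝ) ^ N * (2 ^ (3 * s) * (1 - 1 / (2 * (q : ℝ))) ^ n) ≤ Real.exp (-1) := by
    calc (N : ℝ) ^ N * (2 ^ (3 * s) * (1 - 1 / (2 * (q : ℝ))) ^ n)
        ≤ Real.exp (N * L) * (Real.exp (2.1 * s) * Real.exp (-(x / 2))) := by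
          rw [hA]
          have h1 : (0 : ℝ) ≤ (1 - 1 / (2 * (q : ℝ))) ^ n := pow_nonneg hC0 n
          gcongr
      _ = Real.exp (N * L + 2.1 * s - x / 2) := by
          rw [← Real.exp_add, ← Real.exp_add]
          congr 1
          ring
      _ ≤ Real.exp (-1) := by
          apply Real.exp_le_exp.2
          linarith
  -- the second term
  have hD : ((n : ℝ) * N) ^ s / s.factorial / (q : ℝ) ^ (3 * s) ≤ Real.exp (-(16 * s)) := by
    have h1 : (s : ℝ) ^ s / s.factorial ≤ Real.exp s := Real.pow_div_factorial_le_exp _ hspos.le s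
    have h2 : ((n : ℝ) * N) ^ s / s.factorial / (q : ℝ) ^ (3 * s) =
        ((s : ℝ) ^ s / s.factorial) * ((n * N) / (s * (q : ℝ) ^ 3)) ^ s := by
      rw [pow_mul, div_pow, mul_pow (s : ℝ)]
      have h3 : (s : ℝ) ^ s ≠ 0 := by positivity
      have h4 : (s.factorial : ℝ) ≠ 0 := by positivity
      have h5 : ((q : ℝ) ^ 3) ^ s ≠ 0 := by positivity
      field_simp
    have h3 : (n * N) / (s * (q : ℝ) ^ 3) ≤ Real.exp (-17) := by
      have h4 : (n * N) / (s * (q : ℝ) ^ 3) ≤ 1 / 2 ^ 25 := by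
        rw [div_le_div_iff₀ (by positivity) (by positivity)]
        have h5 : (n : ℝ) = x * q := by
          rw [hx]
          field_simp
        have h6 : x ≤ 32 * s := by linarith
        have h7 : (2 : ℝ) ^ 30 * N ≤ (q : ℝ) ^ 2 := by
          calc (2 : ℝ) ^ 30 * N = (2 ^ 15 * w) ^ 2 := by rw [← hw2]; ring
            _ ≤ (q : ℝ) ^ 2 := by gcongr
        calc (n : ℝ) * N * 2 ^ 25 = x * q * N * 2 ^ 25 := by rw [h5]
          _ ≤ (32 * (s : ℝ)) * q * N * 2 ^ 25 := by gcongr
          _ = (s : ℝ) * q * (2 ^ 30 * N) := by ring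
          _ ≤ (s : ℝ) * q * (q : ℝ) ^ 2 := by gcongr
          _ = 1 * (s * (q : ℝ) ^ 3) := by ring
      refine h4.trans ?_
      have h5 : (1 : ℝ) / 2 ^ 25 = Real.exp (-(25 * Real.log 2)) := by
        rw [Real.exp_neg, show (25 : ℝ) * Real.log 2 = ((25 : ℕ) : ℝ) * Real.log 2 by norm_num, Real.exp_nat_mul,
          Real.exp_log (by norm_num)]
        norm_num
      rw [h5]
      apply Real.exp_le_exp.2
      linarith [Real.log_two_gt_d9]
    rw [h2]
    calc ((s : ℝ) ^ s / s.factorial) * ((n * N) / (s * (q : ℝ) ^ 3)) ^ s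
        ≤ Real.exp s * Real.exp (-17) ^ s := by gcongr
      _ = Real.exp (-(16 * s)) := by
          rw [← Real.exp_nat_mul, ← Real.exp_add]
          congr 1
          ring
  have hT2 : (N : ℝ) ^ N * (((n : ℝ) * N) ^ s / s.factorial / (q : ℝ) ^ (3 * s)) ≤ Real.exp (-1) := by
    calc (N : ℝ) ^ N * (((n : ℝ) * N) ^ s / s.factorial / (q : ℝ) ^ (3 * s))
        ≤ Real.exp (N * L) * Real.exp (-(16 * s)) := by
          rw [hA]
          gcongr
      _ = Real.exp (N * L - 16 * s) := by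
          rw [← Real.exp_add]
          congr 1
      _ ≤ Real.exp (-1) := by
          apply Real.exp_le_exp.2
          linarith
  rw [mul_add]
  linarith

/-- The lower bound for `r(K_3, G)`. -/
theorem lower_tri (n : ℕ) (hn : 2 ≤ n) :
    (1 / 2 ^ 14 : ℝ) * ((n : ℝ) / Real.log n) ^ (2 / 3 : ℝ) ≤ R (⊤ : SimpleGraph (Fin 3)) n := by
  obtain ⟨V, hV, G, hG, hr⟩ := R_attained (⊤ : SimpleGraph (Fin 3)) n
  rw [← hr]
  have harr := arrows_ramsey G
  set N := ramsey (⊤ : SimpleGraph (Fin 3)) G with hN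
  have hn2 : (2 : ℝ) ≤ n := by exact_mod_cast hn
  have hLn : 0.69 < Real.log n := by
    have h1 : Real.log 2 ≤ Real.log n := Real.log_le_log (by norm_num) hn2
    linarith [Real.log_two_gt_d9]
  set y := (n : ℝ) / Real.log n with hy
  have hy0 : 0 < y := by positivity
  have hyn : y ≤ 1.45 * n := by
    rw [hy, div_le_iff₀ (by linarith)]
    nlinarith
  set z := y ^ (2 / 3 : ℝ) with hz
  have hz0 : 0 < z := Real.rpow_pos_of_pos hy0 _
  have hz3 : z ^ 3 = y ^ 2 := by
    rw [hz, ← Real.rpow_natCast (y ^ (2 / 3 : ℝ)) 3, ← Real.rpow_mul hy0.le, ← Real.rpow_natCast y 2]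
    norm_num
  by_contra hcon
  push Not at hcon
  -- `N ≥ 2`
  have hN2 : 2 ≤ N := by
    by_contra hlt
    have hsub : ∀ i j : Fin N, i = j := by
      intro i j
      apply Fin.ext
      omega
    rcases harr ⊥ with ⟨⟨φ⟩⟩ | ⟨⟨φ⟩⟩
    · have h1 := φ.toHom.map_adj (show (⊤ : SimpleGraph (Fin 3)).Adj 0 1 by simp)
      simp at h1
    · have h1 : G.edgeSet.Nonempty := by
        rw [Set.nonempty_iff_ne_empty]
        intro h0
        rw [h0, Set.ncard_empty] at hG
        omega
      obtain ⟨e, he⟩ := h1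
      induction e using Sym2.ind with
      | _ u v =>
        have h2 : Gᶜᶜ.Adj u v := by
          rw [compl_compl]
          exact he
        have h3 := φ.toHom.map_adj (show G.Adj u v from he)
        exact h3.ne (hsub _ _)
  have hNr : (2 : ℝ) ≤ N := by exact_mod_cast hN2
  refine not_arrows_num G n N hN2 hG ?_ harr
  have hz3' : z ^ 3 ≤ (2 * n) ^ 2 := by
    rw [hz3]
    have : y ≤ 2 * n := by linarith
    gcongr
  have hNn : (N : ℝ) ≤ n := by
    by_contra h1
    push Not at h1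
    have h2 : (2 : ℝ) ^ 14 * n < z := by
      have : (1 / 2 ^ 14 : ℝ) * z > n := by linarith
      norm_num at this ⊢
      linarith
    have h3 : ((2 : ℝ) ^ 14 * n) ^ 3 < z ^ 3 := by gcongr
    have h4 : ((2 : ℝ) ^ 14 * n) ^ 3 = 2 ^ 42 * n * n ^ 2 := by ring
    have h5 : (2 * (n : ℝ)) ^ 2 = 4 * n ^ 2 := by ring
    have h6 : (0 : ℝ) < (n : ℝ) ^ 2 := by positivity
    nlinarith
  have hlog : Real.log N ≤ Real.log n := Real.log_le_log (by linarith) hNn
  have hlog0 : 0 ≤ Real.log N := Real.log_nonneg (by linarith)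
  have h1 : (N : ℝ) * Real.sqrt N ≤ y / 2 ^ 21 := by
    have h2 : ((N : ℝ) * Real.sqrt N) ^ 2 ≤ (y / 2 ^ 21) ^ 2 := by
      have h3 : ((N : ℝ) * Real.sqrt N) ^ 2 = (N : ℝ) ^ 3 := by
        rw [mul_pow, Real.sq_sqrt (by positivity)]
        ring
      rw [h3]
      calc (N : ℝ) ^ 3 ≤ ((1 / 2 ^ 14 : ℝ) * z) ^ 3 := by gcongr
        _ = z ^ 3 / 2 ^ 42 := by ring
        _ = (y / 2 ^ 21) ^ 2 := by rw [hz3]; ring
    exact (pow_le_pow_iff_left₀ (by positivity) (by positivity) two_ne_zero).1 h2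
  calc (N : ℝ) * Real.sqrt N * Real.log N ≤ y / 2 ^ 21 * Real.log n := by
        gcongr
    _ = n / 2 ^ 21 := by
        rw [hy]
        have : Real.log n ≠ 0 := by linarith
        field_simp

end Pool.Agent.OffRam
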