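import Mathlib

set_option autoImplicit false

/-! Off-diagonal Ramsey numbers `r(H, G)` for graphs `G` with a given number of edges:
definitions and upper bounds. -/

namespace Pool.Agent.OffRam

open Finset SimpleGraph

/-- Every graph on `N` vertices contains a copy of `H` or its complement contains a copy of `G`. -/
def Arrows {U V : Type} (N : ℕ) (H : SimpleGraph U) (G : SimpleGraph V) : Prop :=
  ∀ Γ : SimpleGraph (Fin N), H.IsContained Γ ∨ G.IsContained Γᶜ

/-- The Ramsey number `r(H, G)`. -/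
noncomputable def ramsey {U V : Type} (H : SimpleGraph U) (G : SimpleGraph V) : ℕ :=
  sInf {N | Arrows N H G}

/-- The least Ramsey number `r(H, G)` of a finite graph `G` with exactly `n` edges. -/
noncomputable def R {U : Type} (H : SimpleGraph U) (n : ℕ) : ℕ :=
  sInf {r | ∃ (V : Type) (_ : Finite V) (G : SimpleGraph V), G.edgeSet.ncard = n ∧ ramsey H G = r}

section hole

variable {V : Type} [DecidableEq V] (Γ : SimpleGraph V)

open scoped Classical in
/-- Greedy choice of an empty pair. -/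
lemma hole_greedy (W U : Finset V) (hU : U ⊆ W) (d : ℕ)
    (hd : ∀ x ∈ U, (W.filter (fun y => Γ.Adj x y)).card ≤ d) (hdW : 2 * d ≤ W.card) (a : ℕ) (ha : 2 * a ≤ W.card)
    (j : ℕ) (hj : j ≤ a) :
    ∃ B ⊆ W, B.card = j ∧ ∃ A ⊆ U, Disjoint A B ∧ (∀ x ∈ A, ∀ y ∈ B, ¬ Γ.Adj x y) ∧
      (U.card : ℝ) * (1 - 2 * d / W.card) ^ j - j ≤ A.card := by
  induction j with
  | zero =>
    refine ⟨∅, by simp, by simp, U, subset_rfl, by simp, by simp, ?_⟩
    simp
  | succ j ih =>
    obtain ⟨B, hBW, hBc, A, hAU, hAB, hadj, hcard⟩ := ih (by omega)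
    have hWpos : 0 < W.card := by omega
    have hWr : (0 : ℝ) < W.card := by exact_mod_cast hWpos
    have hWB : ((W \ B).card : ℝ) = W.card - j := by
      rw [Finset.card_sdiff_of_subset hBW, hBc, Nat.cast_sub (by omega)]
    have hj2 : (2 : ℝ) * j ≤ W.card := by
      have : 2 * j ≤ W.card := by omega
      exact_mod_cast this
    have hne : (W \ B).Nonempty := by
      rw [← Finset.card_pos, Finset.card_sdiff_of_subset hBW, hBc]
      omega
    -- double counting
    have hsum : ∑ b ∈ W \ B, ((A.filter (fun x => Γ.Adj x b)).card : ℝ) ≤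
        ∑ _b ∈ W \ B, (A.card : ℝ) * (2 * d / W.card) := by
      have h1 : ∑ b ∈ W \ B, (A.filter (fun x => Γ.Adj x b)).card ≤ A.card * d := by
        have h2 : ∑ b ∈ W \ B, (A.filter (fun x => Γ.Adj x b)).card =
            ∑ x ∈ A, ((W \ B).filter (fun b => Γ.Adj x b)).card := by
          have := Finset.sum_card_bipartiteAbove_eq_sum_card_bipartiteBelow (s := A) (t := W \ B) (fun x b => Γ.Adj x b)
          simpa [Finset.bipartiteAbove, Finset.bipartiteBelow] using this.symm
        rw [h2]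
        calc ∑ x ∈ A, ((W \ B).filter (fun b => Γ.Adj x b)).card ≤ ∑ _x ∈ A, d := by
              apply Finset.sum_le_sum
              intro x hx
              refine le_trans (Finset.card_le_card ?_) (hd x (hAU hx))
              exact Finset.filter_subset_filter _ Finset.sdiff_subset
          _ = A.card * d := by rw [Finset.sum_const, smul_eq_mul]
      have h3 : ∑ b ∈ W \ B, ((A.filter (fun x => Γ.Adj x b)).card : ℝ) ≤ (A.card : ℝ) * d := by
        exact_mod_cast h1
      refine h3.trans ?_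
      rw [Finset.sum_const, nsmul_eq_mul, hWB]
      have h4 : (A.card : ℝ) * d ≤ ((W.card : ℝ) - j) * (A.card * (2 * d / W.card)) := by
        have h5 : ((W.card : ℝ) - j) * (A.card * (2 * d / W.card)) = (A.card * d) * (2 * (W.card - j) / W.card) := by
          ring
        rw [h5]
        have h6 : 1 ≤ 2 * ((W.card : ℝ) - j) / W.card := by
          rw [le_div_iff₀ hWr]
          linarith
        have h7 : (0 : ℝ) ≤ A.card * d := by positivity
        nlinarith
      exact h4
    obtain ⟨b, hb, hbs⟩ := Finset.exists_le_of_sum_le hne hsum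
    rw [Finset.mem_sdiff] at hb
    refine ⟨insert b B, ?_, ?_, A.filter (fun x => ¬ Γ.Adj x b ∧ x ≠ b), ?_, ?_, ?_, ?_⟩
    · intro x hx
      rcases Finset.mem_insert.1 hx with rfl | hx
      · exact hb.1
      · exact hBW hx
    · rw [Finset.card_insert_of_notMem hb.2, hBc]
    · exact (Finset.filter_subset _ _).trans hAU
    · rw [Finset.disjoint_left]
      intro x hx hx'
      rw [Finset.mem_filter] at hx
      rcases Finset.mem_insert.1 hx' with rfl | hx'
      · exact hx.2.2 rfl
      · exact (Finset.disjoint_left.1 hAB) hx.1 hx'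
    · intro x hx y hy
      rw [Finset.mem_filter] at hx
      rcases Finset.mem_insert.1 hy with rfl | hy
      · exact hx.2.1
      · exact hadj x hx.1 y hy
    · have h1 : (A.card : ℝ) ≤ ((A.filter (fun x => ¬ Γ.Adj x b ∧ x ≠ b)).card : ℝ) +
          ((A.filter (fun x => Γ.Adj x b)).card : ℝ) + 1 := by
        have h2 : A ⊆ (A.filter (fun x => ¬ Γ.Adj x b ∧ x ≠ b)) ∪ (A.filter (fun x => Γ.Adj x b)) ∪ {b} := by
          intro x hx
          by_cases h3 : Γ.Adj x b
          · simp [hx, h3]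
          · by_cases h4 : x = b
            · simp [h4]
            · simp [hx, h3, h4]
        have h3 := Finset.card_le_card h2
        have h4 := Finset.card_union_le ((A.filter (fun x => ¬ Γ.Adj x b ∧ x ≠ b)) ∪ (A.filter (fun x => Γ.Adj x b))) {b}
        have h5 := Finset.card_union_le (A.filter (fun x => ¬ Γ.Adj x b ∧ x ≠ b)) (A.filter (fun x => Γ.Adj x b))
        have h6 : A.card ≤ (A.filter (fun x => ¬ Γ.Adj x b ∧ x ≠ b)).card + (A.filter (fun x => Γ.Adj x b)).card + 1 := by
          rw [Finset.card_singleton] at h4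
          omega
        exact_mod_cast h6
      have hδ0 : (0 : ℝ) ≤ 2 * d / W.card := by positivity
      have hδ1 : (0 : ℝ) ≤ 1 - 2 * d / W.card := by
        have : (2 : ℝ) * d / W.card ≤ 1 := by
          rw [div_le_one hWr]
          exact_mod_cast hdW
        linarith
      have h7 : (A.card : ℝ) * (1 - 2 * d / W.card) - 1 ≤ ((A.filter (fun x => ¬ Γ.Adj x b ∧ x ≠ b)).card : ℝ) := by
        have : (A.card : ℝ) * (1 - 2 * d / W.card) = A.card - A.card * (2 * d / W.card) := by ring
        rw [this]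
        linarith
      refine le_trans ?_ h7
      have h8 : ((U.card : ℝ) * (1 - 2 * d / W.card) ^ j - j) * (1 - 2 * d / W.card) ≤
          (A.card : ℝ) * (1 - 2 * d / W.card) := mul_le_mul_of_nonneg_right hcard hδ1
      have h9 : (j : ℝ) * (1 - 2 * d / W.card) ≤ j := by
        have : (0 : ℝ) ≤ j := by positivity
        nlinarith
      push_cast
      rw [pow_succ]
      nlinarith

open scoped Classical in
/-- The empty pair. -/
lemma hole (W U : Finset V) (hU : U ⊆ W) (d : ℕ)
    (hd : ∀ x ∈ U, (W.filter (fun y => Γ.Adj x y)).card ≤ d) (hdW : 2 * d ≤ W.card) (a : ℕ) (ha : 2 * a ≤ W.card)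
    (hnum : (2 : ℝ) * a ≤ (U.card : ℝ) * (1 - 2 * d / W.card) ^ a) :
    ∃ A ⊆ W, ∃ B ⊆ W, A.card = a ∧ B.card = a ∧ Disjoint A B ∧ ∀ x ∈ A, ∀ y ∈ B, ¬ Γ.Adj x y := by
  obtain ⟨B, hBW, hBc, A, hAU, hAB, hadj, hcard⟩ := hole_greedy Γ W U hU d hd hdW a ha a le_rfl
  have h1 : a ≤ A.card := by
    have : (a : ℝ) ≤ A.card := by linarith
    exact_mod_cast this
  obtain ⟨A', hA', hA'c⟩ := Finset.exists_subset_card_eq h1
  exact ⟨A', hA'.trans (hAU.trans hU), B, hBW, hA'c, hBc, Finset.disjoint_of_subset_left hA' hAB,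
    fun x hx y hy => hadj x (hA' hx) y hy⟩

end hole

/-! ### Graphs without triangles and without 4-cycles -/

lemma tri_contained {V : Type} {Γ : SimpleGraph V} {x y z : V} (h1 : Γ.Adj x y) (h2 : Γ.Adj x z) (h3 : Γ.Adj y z) :
    (⊤ : SimpleGraph (Fin 3)).IsContained Γ := by
  refine ⟨⟨⟨![x, y, z], ?_⟩, ?_⟩⟩
  · intro i j hij
    fin_cases i <;> fin_cases j <;> first
      | exact absurd rfl hij
      | simp [h1, h2, h3, h1.symm, h2.symm, h3.symm]
  · intro i j hij
    fin_cases i <;> fin_cases j <;> simp_all [h1.ne, h2.ne, h3.ne, h1.ne', h2.ne', h3.ne']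

lemma c4_contained {V : Type} {Γ : SimpleGraph V} {x x' y z : V} (hx : x ≠ x') (hy : y ≠ z) (h1 : Γ.Adj x y) (h2 : Γ.Adj x z)
    (h3 : Γ.Adj x' y) (h4 : Γ.Adj x' z) : (cycleGraph 4).IsContained Γ := by
  refine ⟨⟨⟨![x, y, x', z], ?_⟩, ?_⟩⟩
  · intro i j hij
    fin_cases i <;> fin_cases j <;> first
      | exact absurd hij (by decide)
      | simp [h1, h2, h3, h4, h1.symm, h2.symm, h3.symm, h4.symm]
  · intro i j hij
    fin_cases i <;> fin_cases j <;> simp_all [h1.ne, h2.ne, h3.ne, h4.ne, h1.ne', h2.ne', h3.ne', h4.ne', hx.symm, hy.symm]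

open scoped Classical in
/-- A hole in a triangle-free graph. -/
lemma hole_tri {V : Type} (Γ : SimpleGraph V) (hΓ : ¬ (⊤ : SimpleGraph (Fin 3)).IsContained Γ)
    (W : Finset V) (a : ℕ) (ha : 4 * a ≤ W.card)
    (hnum : (2 : ℝ) * a ≤ (W.card : ℝ) * (1 - 4 * a / W.card) ^ a) :
    ∃ A ⊆ W, ∃ B ⊆ W, A.card = a ∧ B.card = a ∧ Disjoint A B ∧ ∀ x ∈ A, ∀ y ∈ B, ¬ Γ.Adj x y := by
  by_cases h : ∃ x ∈ W, 2 * a ≤ (W.filter (fun y => Γ.Adj x y)).card
  · obtain ⟨x, _, hx⟩ := h
    obtain ⟨S, hS, hSc⟩ := Finset.exists_subset_card_eq hx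
    obtain ⟨A, hA, hAc⟩ := Finset.exists_subset_card_eq (show a ≤ S.card by omega)
    refine ⟨A, ?_, S \ A, ?_, hAc, ?_, Finset.disjoint_sdiff, ?_⟩
    · exact hA.trans (hS.trans (Finset.filter_subset _ _))
    · exact Finset.sdiff_subset.trans (hS.trans (Finset.filter_subset _ _))
    · rw [Finset.card_sdiff_of_subset hA, hSc, hAc]
      omega
    · intro y hy z hz hyz
      have h1 := (Finset.mem_filter.1 (hS (hA hy))).2
      have h2 := (Finset.mem_filter.1 (hS (Finset.sdiff_subset hz))).2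
      exact hΓ (tri_contained h1 h2 hyz)
  · push Not at h
    refine hole Γ W W subset_rfl (2 * a) (fun x hx => (h x hx).le) (by omega) a (by omega) ?_
    push_cast
    have : (2 : ℝ) * (2 * a) = 4 * a := by ring
    rw [this]
    exact hnum

open scoped Classical in
/-- Counting in a graph without 4-cycles. -/
lemma c4_count {V : Type} (Γ : SimpleGraph V) (hΓ : ¬ (cycleGraph 4).IsContained Γ) (W : Finset V) :
    ∑ x ∈ W, ((W.filter (fun y => Γ.Adj x y)).card * ((W.filter (fun y => Γ.Adj x y)).card - 1)) ≤ W.card * W.card := by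
  have h1 : ∀ x ∈ W, (W.filter (fun y => Γ.Adj x y)).card * ((W.filter (fun y => Γ.Adj x y)).card - 1) =
      (((W ×ˢ W).filter (fun p => p.1 ≠ p.2 ∧ Γ.Adj x p.1 ∧ Γ.Adj x p.2))).card := by
    intro x _
    have h2 : (W ×ˢ W).filter (fun p => p.1 ≠ p.2 ∧ Γ.Adj x p.1 ∧ Γ.Adj x p.2) =
        (W.filter (fun y => Γ.Adj x y)).offDiag := by
      ext p
      simp only [Finset.mem_filter, Finset.mem_product, Finset.mem_offDiag]
      tauto
    rw [h2, Finset.offDiag_card, Nat.mul_sub, mul_one]
  rw [Finset.sum_congr rfl h1]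
  rw [← Finset.card_biUnion]
  · rw [← Finset.card_product]
    apply Finset.card_le_card
    intro p hp
    rw [Finset.mem_biUnion] at hp
    obtain ⟨x, _, hx⟩ := hp
    exact (Finset.mem_filter.1 hx).1
  · intro x _ x' _ hne
    rw [Function.onFun, Finset.disjoint_left]
    intro p hp hp'
    rw [Finset.mem_filter] at hp hp'
    exact hΓ (c4_contained hne hp.2.1 hp.2.2.1 hp.2.2.2 hp'.2.2.1 hp'.2.2.2)

open scoped Classical in
/-- A hole in a graph without 4-cycles. -/
lemma hole_c4 {V : Type} (Γ : SimpleGraph V) (hΓ : ¬ (cycleGraph 4).IsContained Γ)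
    (W : Finset V) (a d : ℕ) (hd : 4 * W.card ≤ d * (d + 1)) (hdW : 2 * d ≤ W.card) (ha : 2 * a ≤ W.card)
    (hnum : (4 : ℝ) * a ≤ (W.card : ℝ) * (1 - 2 * d / W.card) ^ a) :
    ∃ A ⊆ W, ∃ B ⊆ W, A.card = a ∧ B.card = a ∧ Disjoint A B ∧ ∀ x ∈ A, ∀ y ∈ B, ¬ Γ.Adj x y := by
  set U := W.filter (fun x => (W.filter (fun y => Γ.Adj x y)).card ≤ d) with hU
  set U' := W.filter (fun x => ¬ (W.filter (fun y => Γ.Adj x y)).card ≤ d) with hU'
  have hc : U.card + U'.card = W.card := Finset.card_filter_add_card_filter_not _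
  have h1 := c4_count Γ hΓ W
  have h2 : U'.card * (d * (d + 1)) ≤ W.card * W.card := by
    refine le_trans ?_ h1
    calc U'.card * (d * (d + 1)) = ∑ _x ∈ U', (d * (d + 1)) := by rw [Finset.sum_const, smul_eq_mul]
      _ ≤ ∑ x ∈ U', ((W.filter (fun y => Γ.Adj x y)).card * ((W.filter (fun y => Γ.Adj x y)).card - 1)) := by
          apply Finset.sum_le_sum
          intro x hx
          have h3 := (Finset.mem_filter.1 hx).2
          rw [mul_comm]
          apply Nat.mul_le_mul <;> omega
      _ ≤ _ := Finset.sum_le_sum_of_subset (Finset.filter_subset _ _)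
  have h3 : U'.card * 4 ≤ W.card ∨ W.card = 0 := by
    by_cases h0 : W.card = 0
    · exact Or.inr h0
    · left
      have h4 : U'.card * (4 * W.card) ≤ W.card * W.card :=
        le_trans (Nat.mul_le_mul_left _ hd) h2
      have h5 : (U'.card * 4) * W.card ≤ W.card * W.card := by
        calc (U'.card * 4) * W.card = U'.card * (4 * W.card) := by ring
          _ ≤ _ := h4
      exact Nat.le_of_mul_le_mul_right h5 (Nat.pos_of_ne_zero h0)
  have h6 : W.card ≤ 2 * U.card := by omega
  refine hole Γ W U (Finset.filter_subset _ _) d (fun x hx => (Finset.mem_filter.1 hx).2) hdW a ha ?_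
  have h7 : (W.card : ℝ) ≤ 2 * U.card := by exact_mod_cast h6
  have h8 : (0 : ℝ) ≤ (1 - 2 * d / W.card) ^ a := by
    apply pow_nonneg
    have : (2 : ℝ) * d / W.card ≤ 1 := by
      apply div_le_one_of_le₀ _ (by positivity)
      exact_mod_cast hdW
    linarith
  nlinarith

/-! ### Many disjoint holes -/

/-- `t` disjoint empty pairs of sets with `a` elements. -/
lemma many_holes {N : ℕ} (Γ : SimpleGraph (Fin N)) (a M : ℕ)
    (hP : ∀ W : Finset (Fin N), M ≤ W.card → ∃ A ⊆ W, ∃ B ⊆ W, A.card = a ∧ B.card = a ∧ Disjoint A B ∧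
      ∀ x ∈ A, ∀ y ∈ B, ¬ Γ.Adj x y) (t : ℕ) (ht : M + 2 * a * t ≤ N) (hN : 0 < N) :
    ∃ f : ℕ × Bool × Fin a → Fin N, Set.InjOn f {p | p.1 < t} ∧
      ∀ i < t, ∀ x y, ¬ Γ.Adj (f (i, true, x)) (f (i, false, y)) := by
  classical
  induction t with
  | zero => exact ⟨fun _ => ⟨0, hN⟩, by intro p hp; simp at hp, by simp⟩
  | succ t ih =>
    obtain ⟨f, hf, hadj⟩ := ih (by nlinarith)
    set I : Finset (Fin N) := (Finset.range t ×ˢ (Finset.univ : Finset (Bool × Fin a))).image f with hI
    have hIc : I.card ≤ 2 * a * t := by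
      refine Finset.card_image_le.trans ?_
      rw [Finset.card_product, Finset.card_range, Finset.card_univ, Fintype.card_prod, Fintype.card_bool, Fintype.card_fin]
      exact le_of_eq (by ring)
    obtain ⟨A, hA, B, hB, hAc, hBc, hAB, hno⟩ := hP (Finset.univ \ I) (by
      rw [Finset.card_sdiff_of_subset (Finset.subset_univ _), Finset.card_univ, Fintype.card_fin]
      have : 2 * a * (t + 1) = 2 * a * t + 2 * a := by ring
      omega)
    let eA : Fin a ≃ A := (Fintype.equivFinOfCardEq (by simp [hAc])).symm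
    let eB : Fin a ≃ B := (Fintype.equivFinOfCardEq (by simp [hBc])).symm
    let g : Bool × Fin a → Fin N := fun p => if p.1 = true then (eA p.2 : Fin N) else (eB p.2 : Fin N)
    have hgA : ∀ x, g (true, x) = (eA x : Fin N) := fun x => rfl
    have hgB : ∀ x, g (false, x) = (eB x : Fin N) := fun x => rfl
    have hgI : ∀ p, g p ∉ I := by
      rintro ⟨b, x⟩
      cases b
      · rw [hgB]
        exact (Finset.mem_sdiff.1 (hB (eB x).2)).2
      · rw [hgA]
        exact (Finset.mem_sdiff.1 (hA (eA x).2)).2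
    have hginj : Function.Injective g := by
      rintro ⟨b, x⟩ ⟨b', x'⟩ h
      cases b <;> cases b'
      · rw [hgB, hgB] at h
        have := eB.injective (Subtype.ext h)
        rw [this]
      · rw [hgB, hgA] at h
        exact absurd (h ▸ (eB x).2) (fun h' => Finset.disjoint_left.1 hAB (eA x').2 h')
      · rw [hgA, hgB] at h
        exact absurd (h ▸ (eA x).2) (fun h' => Finset.disjoint_left.1 hAB h' (eB x').2)
      · rw [hgA, hgA] at h
        have := eA.injective (Subtype.ext h)
        rw [this]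
    refine ⟨fun p => if p.1 = t then g p.2 else f p, ?_, ?_⟩
    · intro p hp q hq h
      simp only [Set.mem_setOf_eq] at hp hq
      simp only at h
      by_cases h1 : p.1 = t <;> by_cases h2 : q.1 = t
      · rw [if_pos h1, if_pos h2] at h
        exact Prod.ext (h1.trans h2.symm) (hginj h)
      · rw [if_pos h1, if_neg h2] at h
        exfalso
        apply hgI p.2
        rw [h, hI]
        exact Finset.mem_image_of_mem _ (Finset.mem_product.2 ⟨Finset.mem_range.2 (by omega), Finset.mem_univ _⟩)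
      · rw [if_neg h1, if_pos h2] at h
        exfalso
        apply hgI q.2
        rw [← h, hI]
        exact Finset.mem_image_of_mem _ (Finset.mem_product.2 ⟨Finset.mem_range.2 (by omega), Finset.mem_univ _⟩)
      · rw [if_neg h1, if_neg h2] at h
        exact hf (show p.1 < t by omega) (show q.1 < t by omega) h
    · intro i hi x y
      simp only
      by_cases h1 : i = t
      · rw [if_pos h1, if_pos h1, hgA, hgB]
        exact hno _ (eA x).2 _ (eB y).2
      · rw [if_neg h1, if_neg h1]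
        exact hadj i (by omega) x y

/-- The edges of `t` disjoint complete bipartite graphs. -/
def bedge (t a : ℕ) (p : Fin t × Fin a × Fin a) : Sym2 (Fin t × Bool × Fin a) :=
  s((p.1, true, p.2.1), (p.1, false, p.2.2))

lemma bedge_inj (t a : ℕ) : Function.Injective (bedge t a) := by
  rintro ⟨i, x, y⟩ ⟨i', x', y'⟩ h
  unfold bedge at h
  rw [Sym2.eq_iff] at h
  rcases h with ⟨h1, h2⟩ | ⟨h1, h2⟩
  · simp only [Prod.mk.injEq, true_and] at h1 h2
    simp [h1.1, h1.2, h2.2]
  · simp at h1

/-- The upper bound in terms of holes. -/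
lemma R_le {U : Type} (H : SimpleGraph U) (a t M N n : ℕ) (hn : n ≤ t * (a * a)) (hN : 0 < N) (hMN : M + 2 * a * t ≤ N)
    (hP : ∀ Γ : SimpleGraph (Fin N), ¬ H.IsContained Γ → ∀ W : Finset (Fin N), M ≤ W.card →
      ∃ A ⊆ W, ∃ B ⊆ W, A.card = a ∧ B.card = a ∧ Disjoint A B ∧ ∀ x ∈ A, ∀ y ∈ B, ¬ Γ.Adj x y) :
    R H n ≤ N := by
  classical
  have hcard : n ≤ (Finset.univ : Finset (Fin t × Fin a × Fin a)).card := by
    rw [Finset.card_univ, Fintype.card_prod, Fintype.card_prod, Fintype.card_fin, Fintype.card_fin]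
    exact hn
  obtain ⟨S, _, hSc⟩ := Finset.exists_subset_card_eq hcard
  let G : SimpleGraph (Fin t × Bool × Fin a) := SimpleGraph.fromEdgeSet (bedge t a '' (S : Set _))
  have hdiag : ∀ e ∈ bedge t a '' (S : Set (Fin t × Fin a × Fin a)), ¬ e.IsDiag := by
    rintro _ ⟨p, _, rfl⟩
    unfold bedge
    rw [Sym2.mk_isDiag_iff]
    simp
  have hG : G.edgeSet = bedge t a '' (S : Set _) := by
    rw [SimpleGraph.edgeSet_fromEdgeSet]
    ext e
    constructor
    · exact fun h => h.1
    · exact fun h => ⟨h, hdiag e h⟩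
  have hGn : G.edgeSet.ncard = n := by
    rw [hG, Set.ncard_image_of_injective _ (bedge_inj t a), Set.ncard_coe_finset, hSc]
  have harr : Arrows N H G := by
    intro Γ
    by_cases hΓ : H.IsContained Γ
    · exact Or.inl hΓ
    · right
      obtain ⟨f, hf, hadj⟩ := many_holes Γ a M (hP Γ hΓ) t hMN hN
      have hinj : Function.Injective (fun p : Fin t × Bool × Fin a => f ((p.1 : ℕ), p.2)) := by
        intro p q h
        have h1 := hf (show ((p.1 : ℕ), p.2).1 < t from p.1.2) (show ((q.1 : ℕ), q.2).1 < t from q.1.2) h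
        rw [Prod.mk.injEq] at h1
        exact Prod.ext (Fin.ext h1.1) h1.2
      refine ⟨⟨⟨fun p => f ((p.1 : ℕ), p.2), ?_⟩, hinj⟩⟩
      intro p q hpq
      have h1 : s(p, q) ∈ G.edgeSet := hpq
      rw [hG] at h1
      obtain ⟨⟨i, x, y⟩, _, h2⟩ := h1
      unfold bedge at h2
      rw [Sym2.eq_iff] at h2
      rw [SimpleGraph.compl_adj]
      refine ⟨fun h => hpq.ne (hinj h), ?_⟩
      rcases h2 with ⟨h2, h3⟩ | ⟨h2, h3⟩
      · rw [← h2, ← h3]
        exact hadj i i.2 x y
      · rw [← h2, ← h3]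
        exact fun h => hadj i i.2 x y h.symm
  have h1 : R H n ≤ ramsey H G := Nat.sInf_le ⟨_, inferInstance, G, hGn, rfl⟩
  have h2 : ramsey H G ≤ N := Nat.sInf_le harr
  exact h1.trans h2

end Pool.Agent.OffRam
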