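import Pool.Agent.Lib.MP_9bed89_co.Off.Up

set_option autoImplicit false

/-! The upper bounds for `r(K_3, G)` and `r(C_4, G)` in terms of the number of edges. -/

namespace Pool.Agent.OffRam

open Finset SimpleGraph

lemma exp_le_one_sub {x : ℝ} (hx0 : 0 ≤ x) (hx : x ≤ 1 / 2) : Real.exp (-(2 * x)) ≤ 1 - x := by
  have h1 : 1 + 2 * x ≤ Real.exp (2 * x) := by
    have := Real.add_one_le_exp (2 * x)
    linarith
  rw [Real.exp_neg]
  have h2 : (Real.exp (2 * x))⁻¹ ≤ (1 + 2 * x)⁻¹ := inv_anti₀ (by linarith) h1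
  refine h2.trans ?_
  rw [inv_le_iff_one_le_mul₀ (by linarith)]
  nlinarith

lemma exp_le_pow {x y : ℝ} (hx0 : 0 ≤ x) (hx : x ≤ 1 / 2) (a : ℕ) (h : 2 * x * a ≤ y) :
    Real.exp (-y) ≤ (1 - x) ^ a := by
  have h1 : Real.exp (-y) ≤ Real.exp (-(2 * x)) ^ a := by
    rw [← Real.exp_nat_mul]
    apply Real.exp_le_exp.2
    linarith
  exact h1.trans (pow_le_pow_left₀ (Real.exp_pos _).le (exp_le_one_sub hx0 hx) a)

/-- The hole condition for the triangle. -/
lemma cond_tri (M a m : ℕ) (hM : 24 ≤ M) (ha : (a : ℝ) ≤ Real.sqrt (M * Real.log M) / 8) (hm : M ≤ m) :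
    4 * a ≤ m ∧ (2 : ℝ) * a ≤ (m : ℝ) * (1 - 4 * a / m) ^ a := by
  have hMr : (24 : ℝ) ≤ M := by exact_mod_cast hM
  have hmr : (M : ℝ) ≤ m := by exact_mod_cast hm
  set l := Real.log M with hl
  have hl0 : 0 ≤ l := Real.log_nonneg (by linarith)
  have hexp : Real.exp l = M := by rw [hl, Real.exp_log (by linarith)]
  have hlM : l ≤ M := by
    have := Real.log_le_sub_one_of_pos (show (0 : ℝ) < M by linarith)
    linarith
  have ha2 : 64 * (a : ℝ) ^ 2 ≤ M * l := by
    have h1 : (8 * (a : ℝ)) ^ 2 ≤ Real.sqrt (M * l) ^ 2 := by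
      apply pow_le_pow_left₀ (by positivity)
      linarith
    rw [Real.sq_sqrt (by positivity)] at h1
    nlinarith
  have ha3 : 8 * (a : ℝ) ≤ M := by
    have h1 : (8 * (a : ℝ)) ^ 2 ≤ (M : ℝ) ^ 2 := by nlinarith
    exact (pow_le_pow_iff_left₀ (by positivity) (by positivity) two_ne_zero).1 h1
  constructor
  · have h1 : (4 * (a : ℝ)) ≤ m := by
      have : (0 : ℝ) ≤ a := by positivity
      linarith
    exact_mod_cast h1
  · have hm0 : (0 : ℝ) < m := by linarith
    have h1 : Real.exp (-(l / 8)) ≤ (1 - 4 * (a : ℝ) / m) ^ a := by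
      apply exp_le_pow (by positivity)
      · rw [div_le_iff₀ hm0]
        linarith
      · rw [mul_div_assoc', div_mul_eq_mul_div, div_le_iff₀ hm0]
        have : M * l ≤ m * l := by gcongr
        nlinarith
    have h2 : 2 * (a : ℝ) ≤ Real.exp (7 * l / 8) := by
      have h3 : (2 * (a : ℝ)) ^ 2 ≤ Real.exp (7 * l / 8) ^ 2 := by
        have h4 : Real.exp (7 * l / 8) ^ 2 = M * Real.exp (3 * l / 4) := by
          rw [← Real.exp_nat_mul, ← hexp, ← Real.exp_add]
          congr 1
          push_cast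
          ring
        rw [h4]
        have h5 : l / 16 ≤ Real.exp (3 * l / 4) := by
          have := Real.add_one_le_exp (3 * l / 4)
          linarith
        have h6 : (M : ℝ) * (l / 16) ≤ M * Real.exp (3 * l / 4) := by gcongr
        nlinarith
      exact (pow_le_pow_iff_left₀ (by positivity) (by positivity) two_ne_zero).1 h3
    calc 2 * (a : ℝ) ≤ Real.exp (7 * l / 8) := h2
      _ = M * Real.exp (-(l / 8)) := by
          rw [← hexp, ← Real.exp_add]
          congr 1
          ring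
      _ ≤ m * (1 - 4 * (a : ℝ) / m) ^ a := by gcongr

/-- The hole condition for the 4-cycle. -/
lemma cond_c4 (M a m : ℕ) (hM : 300 ≤ M) (ha : (a : ℝ) ≤ Real.sqrt M * Real.log M / 96) (hm : M ≤ m) :
    ∃ d : ℕ, 4 * m ≤ d * (d + 1) ∧ 2 * d ≤ m ∧ 2 * a ≤ m ∧ (4 : ℝ) * a ≤ (m : ℝ) * (1 - 2 * d / m) ^ a := by
  have hMr : (300 : ℝ) ≤ M := by exact_mod_cast hM
  have hmr : (M : ℝ) ≤ m := by exact_mod_cast hm
  have hm0 : (0 : ℝ) < m := by linarith
  set l := Real.log M with hl
  have hl0 : 0 ≤ l := Real.log_nonneg (by linarith)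
  have hexp : Real.exp l = M := by rw [hl, Real.exp_log (by linarith)]
  set w := Real.sqrt M with hw
  set v := Real.sqrt m with hv
  have hw2 : w * w = M := Real.mul_self_sqrt (by positivity)
  have hv2 : v * v = m := Real.mul_self_sqrt (by positivity)
  have hwv : w ≤ v := Real.sqrt_le_sqrt hmr
  have hw16 : 17 ≤ w := by
    rw [hw]
    apply Real.le_sqrt_of_sq_le
    linarith
  have hwexp : w = Real.exp (l / 2) := by
    rw [hw, ← hexp, Real.exp_half]
  have hlw : l ≤ 2 * w := by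
    have := Real.add_one_le_exp (l / 2)
    rw [← hwexp] at this
    linarith
  have ha2 : 96 * (a : ℝ) ≤ w * l := by linarith
  have ha3 : 48 * (a : ℝ) ≤ M := by nlinarith
  set d := ⌈2 * v⌉₊ with hd
  have hd1 : 2 * v ≤ (d : ℝ) := Nat.le_ceil _
  have hd2 : (d : ℝ) ≤ 3 * v := by
    have := (Nat.ceil_lt_add_one (show (0 : ℝ) ≤ 2 * v by positivity)).le
    linarith
  refine ⟨d, ?_, ?_, ?_, ?_⟩
  · have h1 : (4 : ℝ) * m ≤ d * (d + 1) := by nlinarith
    exact_mod_cast h1
  · have h1 : (2 : ℝ) * d ≤ m := by nlinarith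
    exact_mod_cast h1
  · have h1 : (2 : ℝ) * a ≤ m := by
      have : (0 : ℝ) ≤ a := by positivity
      linarith
    exact_mod_cast h1
  · have h1 : Real.exp (-(l / 8)) ≤ (1 - 2 * (d : ℝ) / m) ^ a := by
      apply exp_le_pow (by positivity)
      · rw [div_le_iff₀ hm0]
        nlinarith
      · rw [mul_div_assoc', div_mul_eq_mul_div, div_le_iff₀ hm0]
        have h3 : 96 * (a : ℝ) ≤ v * l := by nlinarith
        have h4 : (d : ℝ) * (96 * a) ≤ (3 * v) * (v * l) := by gcongr
        have h5 : (3 * v) * (v * l) = 3 * m * l := by rw [← hv2]; ring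
        nlinarith
    have h2 : 4 * (a : ℝ) ≤ Real.exp (7 * l / 8) := by
      have h4 : Real.exp (7 * l / 8) = w * Real.exp (3 * l / 8) := by
        rw [hwexp, ← Real.exp_add]
        congr 1
        ring
      rw [h4]
      have h5 : l / 24 ≤ Real.exp (3 * l / 8) := by
        have := Real.add_one_le_exp (3 * l / 8)
        linarith
      have h6 : w * (l / 24) ≤ w * Real.exp (3 * l / 8) := by gcongr
      linarith
    calc 4 * (a : ℝ) ≤ Real.exp (7 * l / 8) := h2
      _ = M * Real.exp (-(l / 8)) := by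
          rw [← hexp, ← Real.exp_add]
          congr 1
          ring
      _ ≤ m * (1 - 2 * (d : ℝ) / m) ^ a := by gcongr

/-- The number of holes. -/
lemma exists_t (M a n : ℕ) (ha : 1 ≤ a) (haM : 2 * a ≤ M) (h : 4 * (n : ℝ) ≤ M * a) :
    ∃ t : ℕ, n ≤ t * (a * a) ∧ 2 * a * t ≤ M := by
  refine ⟨M / (2 * a), ?_, Nat.mul_div_le M (2 * a)⟩
  have h1 : M < 2 * a * (M / (2 * a) + 1) := Nat.lt_mul_div_succ M (by omega)
  have h2 : 1 ≤ M / (2 * a) := (Nat.one_le_div_iff (by omega)).2 haM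
  set t := M / (2 * a) with ht
  have h3 : 4 * n ≤ M * a := by exact_mod_cast h
  have h4 : M ≤ 4 * a * t := by nlinarith
  have h5 : 4 * n ≤ 4 * (t * (a * a)) := by
    calc 4 * n ≤ M * a := h3
      _ ≤ (4 * a * t) * a := Nat.mul_le_mul_right a h4
      _ = 4 * (t * (a * a)) := by ring
  omega

/-- The upper bound for `r(K_3, G)`. -/
theorem upper_tri (n : ℕ) (hn : 2 ≤ n) :
    (R (⊤ : SimpleGraph (Fin 3)) n : ℝ) ≤ 50 * ((n : ℝ) ^ (2 / 3 : ℝ) / Real.log n ^ (1 / 3 : ℝ)) := by
  have hn2 : (2 : ℝ) ≤ n := by exact_mod_cast hn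
  have hLn : 0.69 < Real.log n := by
    have h1 : Real.log 2 ≤ Real.log n := Real.log_le_log (by norm_num) hn2
    linarith [Real.log_two_gt_d9]
  have hLn' : Real.log n ≤ n := by
    have := Real.log_le_sub_one_of_pos (show (0 : ℝ) < n by linarith)
    linarith
  set y := (n : ℝ) ^ (2 / 3 : ℝ) / Real.log n ^ (1 / 3 : ℝ) with hy
  have hy0 : 0 < y := by positivity
  have hy3 : y ^ 3 = (n : ℝ) ^ 2 / Real.log n := by
    rw [hy, div_pow, ← Real.rpow_natCast ((n : ℝ) ^ (2 / 3 : ℝ)) 3, ← Real.rpow_mul (by linarith),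
      ← Real.rpow_natCast (Real.log n ^ (1 / 3 : ℝ)) 3, ← Real.rpow_mul (by linarith), ← Real.rpow_natCast (n : ℝ) 2]
    norm_num
  have hyn : (n : ℝ) ≤ y ^ 3 := by
    rw [hy3, le_div_iff₀ (by linarith)]
    nlinarith
  have hy1 : 1 ≤ y := by
    have : (1 : ℝ) ^ 3 ≤ y ^ 3 := by linarith
    exact (pow_le_pow_iff_left₀ (by positivity) (by positivity) three_ne_zero).1 this
  set M := ⌈24 * y⌉₊ with hM
  have hM1 : 24 * y ≤ M := Nat.le_ceil _
  have hM2 : (M : ℝ) ≤ 25 * y := by
    have := (Nat.ceil_lt_add_one (show (0 : ℝ) ≤ 24 * y by positivity)).le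
    linarith
  have hM24 : (24 : ℝ) ≤ M := by linarith
  have hM24' : 24 ≤ M := by exact_mod_cast hM24
  set l := Real.log M with hl
  have hlow : Real.log n / 3 ≤ l := by
    have h1 : Real.log n ≤ Real.log (y ^ 3) := Real.log_le_log (by linarith) hyn
    rw [Real.log_pow] at h1
    have h2 : Real.log y ≤ l := Real.log_le_log hy0 (by linarith)
    push_cast at h1
    linarith
  have hl3 : 3 ≤ l := by
    have h1 : Real.exp 3 ≤ M := by
      have h2 : Real.exp 3 = Real.exp 1 ^ 3 := by rw [← Real.exp_nat_mul]; norm_num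
      have h3 : Real.exp 1 ^ 3 ≤ 2.7182818286 ^ 3 := pow_le_pow_left₀ (Real.exp_pos _).le Real.exp_one_lt_d9.le 3
      rw [h2]
      refine h3.trans (le_trans ?_ hM24)
      norm_num
    rw [hl]
    exact (Real.le_log_iff_exp_le (by linarith)).2 h1
  set b := Real.sqrt (M * l) / 8 with hb
  have hb1 : 1 ≤ b := by
    rw [hb, le_div_iff₀ (by norm_num)]
    apply Real.le_sqrt_of_sq_le
    nlinarith
  set a := ⌊b⌋₊ with ha
  have ha1 : (a : ℝ) ≤ b := Nat.floor_le (by linarith)
  have ha2 : b ≤ 2 * a := by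
    have h1 := (Nat.lt_floor_add_one b).le
    have h2 : 1 ≤ a := (Nat.one_le_floor_iff b).2 hb1
    have h3 : (1 : ℝ) ≤ a := by exact_mod_cast h2
    rw [← ha] at h1
    linarith
  have ha0 : 1 ≤ a := (Nat.one_le_floor_iff b).2 hb1
  obtain ⟨h4a, -⟩ := cond_tri M a M hM24' ha1 le_rfl
  have hnum : 4 * (n : ℝ) ≤ M * a := by
    have h1 : 64 * (n : ℝ) ≤ M * Real.sqrt (M * l) := by
      have h2 : (64 * (n : ℝ)) ^ 2 ≤ (M * Real.sqrt (M * l)) ^ 2 := by
        rw [mul_pow (M : ℝ), Real.sq_sqrt (by positivity)]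
        calc (64 * (n : ℝ)) ^ 2 = 4096 * ((n : ℝ) ^ 2 / Real.log n * Real.log n) := by
              field_simp
              norm_num
          _ = 4096 * (y ^ 3 * Real.log n) := by rw [hy3]
          _ ≤ 24 ^ 3 * (y ^ 3 * (Real.log n / 3)) := by
              have : 0 < y ^ 3 * Real.log n := by positivity
              nlinarith
          _ = (24 * y) ^ 3 * (Real.log n / 3) := by ring
          _ ≤ (M : ℝ) ^ 3 * l := by gcongr
          _ = (M : ℝ) ^ 2 * (M * l) := by ring
      exact (pow_le_pow_iff_left₀ (by positivity) (by positivity) two_ne_zero).1 h2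
    have h3 : M * Real.sqrt (M * l) = 8 * (M * b) := by rw [hb]; ring
    have h4 : (M : ℝ) * b ≤ M * (2 * a) := by gcongr
    linarith
  obtain ⟨t, ht1, ht2⟩ := exists_t M a n ha0 (by omega) hnum
  have hR : R (⊤ : SimpleGraph (Fin 3)) n ≤ 2 * M := by
    refine R_le _ a t M (2 * M) n ht1 (by omega) (by omega) ?_
    intro Γ hΓ W hW
    obtain ⟨h1, h2⟩ := cond_tri M a W.card hM24' ha1 hW
    exact hole_tri Γ hΓ W a h1 h2
  have hR' : (R (⊤ : SimpleGraph (Fin 3)) n : ℝ) ≤ 2 * M := by exact_mod_cast hR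
  linarith

/-- The upper bound for `r(C_4, G)`. -/
theorem upper_c4 (n : ℕ) (hn : 2 ≤ n) :
    (R (cycleGraph 4) n : ℝ) ≤ 602 * ((n : ℝ) / Real.log n) ^ (2 / 3 : ℝ) := by
  have hn2 : (2 : ℝ) ≤ n := by exact_mod_cast hn
  have hLn : 0.69 < Real.log n := by
    have h1 : Real.log 2 ≤ Real.log n := Real.log_le_log (by norm_num) hn2
    linarith [Real.log_two_gt_d9]
  set z := (n : ℝ) / Real.log n with hz
  have hz0 : 0 < z := by positivity
  set y := z ^ (2 / 3 : ℝ) with hy
  have hy0 : 0 < y := by positivity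
  have hy3 : y ^ 3 = z ^ 2 := by
    rw [hy, ← Real.rpow_natCast (z ^ (2 / 3 : ℝ)) 3, ← Real.rpow_mul hz0.le, ← Real.rpow_natCast z 2]
    norm_num
  -- `log n ≤ √n`
  have hlogn : Real.log n ^ 2 ≤ n := by
    set r := Real.sqrt n with hr
    have hr2 : r * r = n := Real.mul_self_sqrt (by linarith)
    have hr0 : 0 < r := Real.sqrt_pos.2 (by linarith)
    have h1 : Real.log n ≤ r := by
      have h2 : Real.log n = 2 * Real.log r := by
        rw [← hr2, Real.log_mul hr0.ne' hr0.ne']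
        ring
      have h3 : Real.log (r / 2) ≤ r / 2 - 1 := Real.log_le_sub_one_of_pos (by positivity)
      rw [Real.log_div hr0.ne' two_ne_zero] at h3
      rw [h2]
      linarith [Real.log_two_lt_d9]
    nlinarith
  have hyn : (n : ℝ) ≤ y ^ 3 := by
    rw [hy3, hz, div_pow, le_div_iff₀ (by positivity)]
    nlinarith
  have hy1 : 1 ≤ y := by
    have : (1 : ℝ) ^ 3 ≤ y ^ 3 := by linarith
    exact (pow_le_pow_iff_left₀ (by positivity) (by positivity) three_ne_zero).1 this
  set M := ⌈300 * y⌉₊ with hM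
  have hM1 : 300 * y ≤ M := Nat.le_ceil _
  have hM2 : (M : ℝ) ≤ 301 * y := by
    have := (Nat.ceil_lt_add_one (show (0 : ℝ) ≤ 300 * y by positivity)).le
    linarith
  have hM300 : (300 : ℝ) ≤ M := by linarith
  have hM300' : 300 ≤ M := by exact_mod_cast hM300
  set l := Real.log M with hl
  have hlow : Real.log n / 3 ≤ l := by
    have h1 : Real.log n ≤ Real.log (y ^ 3) := Real.log_le_log (by linarith) hyn
    rw [Real.log_pow] at h1
    have h2 : Real.log y ≤ l := Real.log_le_log hy0 (by linarith)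
    push_cast at h1
    linarith
  have hl5 : 5.6 ≤ l := by
    have h1 : Real.log 2 * (815 / 100) ≤ l := by
      have h2 : (2 : ℝ) ^ 163 ≤ (300 : ℝ) ^ 20 := by norm_num
      have h3 : Real.log ((2 : ℝ) ^ 163) ≤ Real.log ((300 : ℝ) ^ 20) := Real.log_le_log (by positivity) h2
      rw [Real.log_pow, Real.log_pow] at h3
      have h4 : Real.log 300 ≤ l := Real.log_le_log (by norm_num) hM300
      push_cast at h3
      linarith
    linarith [Real.log_two_gt_d9]
  set w := Real.sqrt M with hw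
  have hw2 : w * w = M := Real.mul_self_sqrt (by positivity)
  have hw17 : 17.3 ≤ w := by
    rw [hw]
    apply Real.le_sqrt_of_sq_le
    norm_num
    linarith
  set b := w * l / 96 with hb
  have hb1 : 1 ≤ b := by
    rw [hb, le_div_iff₀ (by norm_num)]
    nlinarith
  set a := ⌊b⌋₊ with ha
  have ha1 : (a : ℝ) ≤ b := Nat.floor_le (by linarith)
  have ha0 : 1 ≤ a := (Nat.one_le_floor_iff b).2 hb1
  have ha2 : b ≤ 2 * a := by
    have h1 := (Nat.lt_floor_add_one b).le
    have h3 : (1 : ℝ) ≤ a := by exact_mod_cast ha0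
    rw [← ha] at h1
    linarith
  obtain ⟨-, -, -, h2a, -⟩ := cond_c4 M a M hM300' ha1 le_rfl
  have hnum : 4 * (n : ℝ) ≤ M * a := by
    have h1 : 768 * (n : ℝ) ≤ M * w * l := by
      have h2 : 2304 * z ≤ M * w := by
        have h3 : (2304 * z) ^ 2 ≤ (M * w) ^ 2 := by
          calc (2304 * z) ^ 2 = 2304 ^ 2 * z ^ 2 := by ring
            _ ≤ 300 ^ 3 * z ^ 2 := by
                have : 0 < z ^ 2 := by positivity
                nlinarith
            _ = (300 * y) ^ 3 := by rw [← hy3]; ring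
            _ ≤ (M : ℝ) ^ 3 := by gcongr
            _ = (M * w) ^ 2 := by
                calc (M : ℝ) ^ 3 = (M : ℝ) ^ 2 * M := by ring
                  _ = (M : ℝ) ^ 2 * (w * w) := by rw [hw2]
                  _ = (M * w) ^ 2 := by ring
        exact (pow_le_pow_iff_left₀ (by positivity) (by positivity) two_ne_zero).1 h3
      calc 768 * (n : ℝ) = 2304 * z * (Real.log n / 3) := by
            rw [hz]
            field_simp
            norm_num
        _ ≤ M * w * l := by gcongr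
    have h3 : M * w * l = 96 * (M * b) := by rw [hb]; ring
    have h4 : (M : ℝ) * b ≤ M * (2 * a) := by gcongr
    linarith
  obtain ⟨t, ht1, ht2⟩ := exists_t M a n ha0 h2a hnum
  have hR : R (cycleGraph 4) n ≤ 2 * M := by
    refine R_le _ a t M (2 * M) n ht1 (by omega) (by omega) ?_
    intro Γ hΓ W hW
    obtain ⟨d, h1, h2, h3, h4⟩ := cond_c4 M a W.card hM300' ha1 hW
    exact hole_c4 Γ hΓ W a d h1 h2 h3 h4
  have hR' : (R (cycleGraph 4) n : ℝ) ≤ 2 * M := by exact_mod_cast hR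
  linarith

end Pool.Agent.OffRam
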